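import Mathlib
import Pool.Agent.KS6_16.VJ.Main2
import Pool.Agent.KS6_77.VJ.StO
import Pool.Agent.KS6_77.VJ.Fin
import Pool.Agent.KS6_8.VJ.W2f
import Pool.Agent.KS6_8.VJ.O4
import Pool.Agent.KS6_82.VJ.Inv
import Pool.Agent.KS6_77.VJ.Exi
import Pool.Agent.KS6_8.VJ.EC

/-!
# The logarithmic error term in Vojta's inequality fails on every curve

Let `X` be a smooth projective curve over a number field `k`, given by its function field `K`; its
closed points are the valuation rings `P ≠ K` of `K` which contain `k`.

**Weil functions.**  A divisor `E` on `X` is represented by a pair of tuples `(p; q)` of functions in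
`K` with `E = div p - div q`, where `div p = min_i div p_i` (every divisor has such a
representation: it is a difference of two base point free divisors).  At a closed point `x` with
residue field `L` and at a place `w` of `L` the Weil function is
`λ_E,w(x) = - log max_i |p_i(x)|_w + log max_j |q_j(x)|_w`, the height is
`h_E(x) = [L : k]⁻¹ ∑_w λ_E,w(x)` and the proximity function is the same sum over the places
`w ∈ S`.  The absolute values are normalised by the product formula, so everything is relative to
`k`.  Other representations change these functions by bounded functions; the theorem holds for all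
of them.  `S` consists of the infinite places and the places above the primes in `T`.

The canonical divisor is `K_X = div ω` for the differential `ω` with `ω(D) = 1`, where `D` is a
nonzero `k`-derivation of `K` (`D g = dg / ω`): `ord_P ω = - ord_P (D z)` for a uniformiser `z` at
`P`.

**Theorem.**  Let `𝒟` be a reduced effective divisor on `X`, `Y → X` a finite covering by a curve
(function field `F`), and `t ∈ F` a nonconstant function such that the zeros and poles of `t` lie
over `𝒟` and `Y → X` is unramified at all other points, and suppose that at some point of `Y` which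
is not a zero or pole of `t` either `t` is ramified or `X` meets `𝒟` below (that is,
`deg (K_X + 𝒟) > 0`; otherwise `X - 𝒟` is a form of `G_m`).  Then there are `r` and `c > 0` such that
for every large finite set `T` of primes, every `C < c |T|`, every divisor `A` and every constant
`M` the inequality `h_K(x) + m_S(𝒟, x) < C log⁺ h_A(x) + d(x) + M` fails for infinitely many closed
points `x` of degree at most `r`.

The case `Y = X` shows that the inequality fails on EVERY curve `X`: take any nonconstant function
`t` on `X` and let `𝒟` contain the zeros and poles of `t` and one more point (parts (2), (3) below;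
part (1) says that the representations used in the definition of the heights exist for all curves and
all divisors). Further examples with `Y ≠ X`, not needed here: an elliptic curve and `𝒟` containing
the origin `O` (`Y → X` is the duplication and `t = x - e`, with divisor `2 [e] - 2 [O]`), and
`y² = g(x)` with `g` of odd degree at least three and `𝒟` containing the point at infinity
(`t = √(x - e₁) - √(x - e₂)`).
-/

open NumberField

namespace Pool.Agent.Results.MP_e44225_nt.CoversWithUnits

/-- `P` is a closed point of the curve with function field `K` over `k`. -/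
def IsPoint (k : Type) {K : Type} [Field k] [Field K] [Algebra k K] (P : ValuationSubring K) :
    Prop :=
  (∀ a : k, algebraMap k K a ∈ P) ∧ P ≠ ⊤

/-- `z` is a uniformiser at `P`. -/
def IsUniformizer {K : Type} [Field K] (P : ValuationSubring K) (z : K) : Prop :=
  ∀ y : K, P.valuation y < 1 ↔ P.valuation y ≤ P.valuation z

/-- `K / k` is a function field of one variable. -/
def IsFunctionField (k K : Type) [Field k] [Field K] [Algebra k K] : Prop :=
  ∃ f : K, Transcendental k f ∧ FiniteDimensional (IntermediateField.adjoin k {f}) K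

/-- `p_i` is a nonzero element of minimal order at `P` in the tuple `p`, that is
`ord_P (div p) = ord_P (p_i)`. -/
def IsMinOrder {K : Type} [Field K] {n : ℕ} (P : ValuationSubring K) (p : Fin n → K) (i : Fin n) :
    Prop :=
  p i ≠ 0 ∧ ∀ i', P.valuation (p i') ≤ P.valuation (p i)

/-- `div p - div q = K_X`, the divisor of the differential `ω` with `ω(D) = 1`:
`ord_P (div p) + ord_P (D z) = ord_P (div q)` for all closed points `P` and uniformisers `z`. -/
def RepresentsCanonical (k : Type) {K : Type} [Field k] [Field K] [Algebra k K]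
    (D : Derivation k K K) {n m : ℕ} (p : Fin n → K) (q : Fin m → K) : Prop :=
  ∀ P : ValuationSubring K, IsPoint k P → ∀ z : K, IsUniformizer P z →
    ∃ i j, IsMinOrder P p i ∧ IsMinOrder P q j ∧ P.valuation (p i * D z) = P.valuation (q j)

/-- `div p - div q = ∑_{P ∈ 𝒟} P`. -/
def RepresentsReduced (k : Type) {K : Type} [Field k] [Field K] [Algebra k K]
    (𝒟 : Set (ValuationSubring K)) {n m : ℕ} (p : Fin n → K) (q : Fin m → K) : Prop :=
  ∀ P : ValuationSubring K, IsPoint k P →
    (P ∈ 𝒟 → ∀ z : K, IsUniformizer P z →
      ∃ i j, IsMinOrder P p i ∧ IsMinOrder P q j ∧ P.valuation (p i) = P.valuation (z * q j)) ∧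
    (P ∉ 𝒟 → ∃ i j, IsMinOrder P p i ∧ IsMinOrder P q j ∧ P.valuation (p i) = P.valuation (q j))

/-- `F / K` is the function field extension of `Y → X` and `t ∈ F` a nonconstant function whose
zeros and poles lie over `𝒟`, and `Y → X` is unramified at the other points (some `z ∈ K` is a
uniformiser there). -/
def UnitCover (k : Type) {K F : Type} [Field k] [Field K] [Field F] [Algebra k K] [Algebra K F]
    [Algebra k F] (𝒟 : Set (ValuationSubring K)) (t : F) : Prop :=
  Transcendental k t ∧
  ∀ Q : ValuationSubring F, IsPoint k Q →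
    ((t ∉ Q ∨ t⁻¹ ∉ Q) → Q.comap (algebraMap K F) ∈ 𝒟) ∧
    (t ∈ Q → t⁻¹ ∈ Q → ∃ z : K, IsUniformizer Q (algebraMap K F z))

/-- Some point `Q` of `Y` is not a zero or pole of `t` and lies over `𝒟` or is a ramification point
of `t` (no polynomial in `t` is a uniformiser at `Q`). -/
def NotGm (k : Type) {K F : Type} [Field k] [Field K] [Field F] [Algebra k K] [Algebra K F]
    [Algebra k F] (𝒟 : Set (ValuationSubring K)) (t : F) : Prop :=
  ∃ Q : ValuationSubring F, IsPoint k Q ∧ t ∈ Q ∧ t⁻¹ ∈ Q ∧
    (Q.comap (algebraMap K F) ∈ 𝒟 ∨ ∀ p : Polynomial k, ¬ IsUniformizer Q (Polynomial.aeval t p))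

section values
variable {K L : Type} [Field K] [Field L]

/-- The value `g(x)` at the point `x` with valuation ring `P` and residue map `φ : P → L` of a
function `g` regular at `x` (`0` if `g` has a pole). -/
noncomputable def value {P : ValuationSubring K} (φ : P →+* L) (g : K) : L :=
  open Classical in if h : g ∈ P then φ ⟨g, h⟩ else 0

/-- The functions `p_i` are regular at the point and do not all vanish there. -/
def IsRegular {n : ℕ} (p : Fin n → K) {P : ValuationSubring K} (φ : P →+* L) : Prop :=
  (∀ i, p i ∈ P) ∧ ∃ i, value φ (p i) ≠ 0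

/-- The local Weil function `- log max |p_i(x)| + log max |q_j(x)|` of `div p - div q`. -/
noncomputable def weil {n m : ℕ} (p : Fin n → K) (q : Fin m → K) {P : ValuationSubring K}
    (φ : P →+* L) (a : L → ℝ) : ℝ :=
  Real.log (⨆ j, a (value φ (q j))) - Real.log (⨆ i, a (value φ (p i)))

end values

section sums
variable (L : Type) [Field L] [NumberField L]

/-- The sum of a local quantity over all places of `L`. -/
noncomputable def placeSum (Φ : (L → ℝ) → ℝ) : ℝ :=
  ∑ w : InfinitePlace L, (w.mult : ℝ) * Φ (fun y => w y) + ∑ᶠ w : FinitePlace L, Φ (fun y => w y)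

/-- The sum over the infinite places and the finite places above the primes in `T`. -/
noncomputable def placeSumS (T : Finset ℕ) (Φ : (L → ℝ) → ℝ) : ℝ :=
  ∑ w : InfinitePlace L, (w.mult : ℝ) * Φ (fun y => w y) +
    ∑ᶠ w ∈ {w : FinitePlace L | ∃ p ∈ T, w ((p : ℕ) : L) < 1}, Φ (fun y => w y)

end sums

/-- The inequality `h_K(x) + m_S(𝒟, x) < C log⁺ h_A(x) + d(x) + M` fails for the reduced divisor `𝒟`
in the following strong form: for all representations `(p; q)` of `K_X` and `(p'; q')` of `𝒟` there
are `r` and `c > 0` such that for all large finite sets `T` of primes, all `C < c |T|`, all divisors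
`A` (represented by `(a; b)`) and all `M` it fails for infinitely many closed points `x` of degree at
most `r`. -/
def LogInequalityFails (k : Type) {K : Type} [Field k] [NumberField k] [Field K] [Algebra k K]
    (𝒟 : Set (ValuationSubring K)) : Prop :=
  ∀ D : Derivation k K K, D ≠ 0 → ∀ (n₁ n₂ n₃ n₄ : ℕ) (p : Fin n₁ → K) (q : Fin n₂ → K),
    RepresentsCanonical k D p q → ∀ (p' : Fin n₃ → K) (q' : Fin n₄ → K),
    RepresentsReduced k 𝒟 p' q' →
    ∃ (r : ℕ) (c : ℝ) (T₀ : Finset ℕ), 0 < c ∧
      ∀ T : Finset ℕ, T₀ ⊆ T → (∀ p ∈ T, p.Prime) → ∀ C : ℝ, C < c * T.card →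
      ∀ (m₁ m₂ : ℕ) (a : Fin m₁ → K) (b : Fin m₂ → K), (∃ i, a i ≠ 0) → (∃ i, b i ≠ 0) →
      ∀ M : ℝ,
      {P : ValuationSubring K | IsPoint k P ∧
        ∃ (L : Type) (_ : Field L) (_ : NumberField L) (_ : Algebra k L) (φ : P →+* L),
          Function.Surjective φ ∧ (∀ a : k, value φ (algebraMap k K a) = algebraMap k L a) ∧
          Module.finrank k L ≤ r ∧ IsRegular p φ ∧ IsRegular q φ ∧ IsRegular p' φ ∧
          IsRegular q' φ ∧ IsRegular a φ ∧ IsRegular b φ ∧
          C * Real.log (max 1 (placeSum L (weil a b φ) / Module.finrank k L)) +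
            Real.log |(discr L : ℝ)| / Module.finrank k L + M ≤
          placeSum L (weil p q φ) / Module.finrank k L +
            placeSumS L T (weil p' q' φ) / Module.finrank k L}.Infinite

/-- **The logarithmic error term in Vojta's inequality fails.**  Let `X` be a curve over a number
field `k`, with the function field `K`.
(1) The representations exist: there is a nonzero derivation of `K / k`, the divisor of every nonzero
derivation and every finite set of points have a representation.
(2) The inequality fails for `𝒟` if there are a finite covering `Y → X` (function field `F`) and a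
nonconstant function `t` on `Y` whose zeros and poles lie over `𝒟`, `Y → X` is unramified at the other
points, and some point of `Y` which is not a zero or pole of `t` lies over `𝒟` or is a ramification
point of `t`.
(3) In particular it fails on every curve `X`: for every nonconstant function `t` on `X`, every set
`𝒟` of points which contains the zeros and poles of `t` and at least one other point; the set of the
zeros and poles is finite, and there are other points. -/
theorem result (k K : Type) [Field k] [NumberField k] [Field K] [Algebra k K]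
    (hK : IsFunctionField k K) :
    ((∃ D : Derivation k K K, D ≠ 0) ∧
      (∀ D : Derivation k K K, D ≠ 0 → ∃ (n m : ℕ) (p : Fin n → K) (q : Fin m → K),
        RepresentsCanonical k D p q) ∧
      ∀ 𝒟 : Set (ValuationSubring K), 𝒟.Finite → (∀ P ∈ 𝒟, IsPoint k P) →
        ∃ (n m : ℕ) (p : Fin n → K) (q : Fin m → K), RepresentsReduced k 𝒟 p q) ∧
    (∀ (F : Type) [Field F] [Algebra K F] [Algebra k F] [IsScalarTower k K F]
      [FiniteDimensional K F] (𝒟 : Set (ValuationSubring K)) (t : F),
      UnitCover k 𝒟 t → NotGm k 𝒟 t → LogInequalityFails k 𝒟) ∧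
    ∀ t : K, Transcendental k t → {P | IsPoint k P ∧ (t ∉ P ∨ t⁻¹ ∉ P)}.Finite ∧
      (∃ P₁ : ValuationSubring K, IsPoint k P₁ ∧ t ∈ P₁ ∧ t⁻¹ ∈ P₁) ∧
      ∀ 𝒟 : Set (ValuationSubring K), {P | IsPoint k P ∧ (t ∉ P ∨ t⁻¹ ∉ P)} ⊆ 𝒟 →
        (∃ P₁ ∈ 𝒟, IsPoint k P₁ ∧ t ∈ P₁ ∧ t⁻¹ ∈ P₁) → LogInequalityFails k 𝒟 := by
  have main : ∀ (F : Type) [Field F] [Algebra K F] [Algebra k F] [IsScalarTower k K F]
      [FiniteDimensional K F] (𝒟 : Set (ValuationSubring K)) (t : F),
      UnitCover k 𝒟 t → NotGm k 𝒟 t → LogInequalityFails k 𝒟 := by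
    intro F _ _ _ _ _ 𝒟 t ht hG D hD n₁ n₂ n₃ n₄ p q hpq p' q' hpq'
    obtain ⟨r, c, T₀, hc, h⟩ := KS6_16.VJ.final_of2 Pool.Agent.KS6_77.VJ.stO
      Pool.Agent.KS6_8.VJ.stO4 Pool.Agent.KS6_8.VJ.stW2f Pool.Agent.KS6_77.VJ.stFin
      Pool.Agent.KS6_82.VJ.stINV k K F hK 𝒟 t ht hG D hD p q p' q' hpq hpq'
    exact ⟨r, c, T₀, hc, fun T hT hp C hC m₁ m₂ a b ha hb M => h T hT hp C hC a b ha hb M⟩
  refine ⟨?_, main, ?_⟩
  · obtain ⟨h1, h2, h3⟩ := Pool.Agent.KS6_77.VJ.stEX k K hK
    exact ⟨h3, h1, h2⟩
  · intro t ht
    obtain ⟨h1, h2, h3⟩ := Pool.Agent.KS6_8.VJ.stEC k K hK t ht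
    refine ⟨h1, h2, fun 𝒟 hD hP => ?_⟩
    obtain ⟨h4, h5⟩ := h3 𝒟 hD
    exact main K 𝒟 t h4 (h5 hP)

end Pool.Agent.Results.MP_e44225_nt.CoversWithUnits
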